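import Pool.Agent.NNe.Chk

set_option linter.all false
set_option maxRecDepth 1000000
namespace Pool.Agent.NNr.R13_1_2_4

open Pool.Agent.NNe

noncomputable def C2_0 : Cd := (Cd.mk (nat_lit 0) (nat_lit 4) (nat_lit 784) (nat_lit 0) (nat_lit 0) (nat_lit 0) (nat_lit 0) Sl.nil)
noncomputable def C2_1 : Cd := (Cd.mk (nat_lit 0) (nat_lit 5) (nat_lit 560) (nat_lit 0) (nat_lit 0) (nat_lit 0) (nat_lit 0) Sl.nil)
noncomputable def C2_2 : Cd := (Cd.mk (nat_lit 0) (nat_lit 6) (nat_lit 336) (nat_lit 0) (nat_lit 0) (nat_lit 0) (nat_lit 0) Sl.nil)
noncomputable def C2_3 : Cd := (Cd.mk (nat_lit 0) (nat_lit 7) (nat_lit 112) (nat_lit 0) (nat_lit 0) (nat_lit 0) (nat_lit 0) Sl.nil)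
noncomputable def SI2_4 : Nat := (nat_lit 0x20080100400)
noncomputable def SW2_4 : Nat := (nat_lit 0x40000008002003)
noncomputable def RV2_4 : Nat := (nat_lit 0x1ac0011ac0021ac00428e0021ac005)
noncomputable def CO2_4 : Nat := (nat_lit 0x2a8160280d6026556026547002b16)
noncomputable def Y2_4_1_2 : Nat := (nat_lit 0x300330)
noncomputable def C2_4 : Cd := (Cd.mk (nat_lit 5) (nat_lit 5) (nat_lit 770) SI2_4 SW2_4 RV2_4 CO2_4 (Sl.cons (Sd.mk (nat_lit 0) (nat_lit 0) (nat_lit 0) (nat_lit 1) (Sb.cons (nat_lit 8) (nat_lit 0) (nat_lit 1) Sb.nil) Bl.nil) (Sl.cons (Sd.mk (nat_lit 9) (nat_lit 8) (nat_lit 1) (nat_lit 2) (Sb.cons (nat_lit 8) (nat_lit 0) (nat_lit 2) Sb.nil) (Bl.r Y2_4_1_2 (nat_lit 2) Bl.nil)) (Sl.cons (Sd.mk (nat_lit 10) (nat_lit 8) (nat_lit 3) (nat_lit 2) (Sb.cons (nat_lit 0) (nat_lit 0) (nat_lit 1) (Sb.cons (nat_lit 8) (nat_lit 1) (nat_lit 1) Sb.nil)) (Bl.c Y2_4_1_2 (nat_lit 6) (nat_lit 1) Bl.nil)) Sl.nil))))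
noncomputable def SI2_5 : Nat := (nat_lit 0x1405014040100300c02008020040100000)
noncomputable def SW2_5 : Nat := (nat_lit 0x1a003001002000e00a0048018002000006002c00a004)
noncomputable def RV2_5 : Nat := (nat_lit 0x21000221000318a00221000618a00721000718a00921000021000118a00021000818a00ba1000598a004)
noncomputable def CO2_5 : Nat := (nat_lit 0x2a80802888802888502558802558501664801664501100801004801004500aa0800aa05001108001105)
noncomputable def Y2_5_1_0 : Nat := (nat_lit 0x100220)
noncomputable def Y2_5_2_3 : Nat := (nat_lit 0x110110200)
noncomputable def Y2_5_4_5 : Nat := (nat_lit 0x110660)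
noncomputable def C2_5 : Cd := (Cd.mk (nat_lit 14) (nat_lit 6) (nat_lit 546) SI2_5 SW2_5 RV2_5 CO2_5 (Sl.cons (Sd.mk (nat_lit 0) (nat_lit 0) (nat_lit 0) (nat_lit 2) (Sb.cons (nat_lit 4) (nat_lit 0) (nat_lit 2) Sb.nil) (Bl.c Y2_5_1_0 (nat_lit 6) (nat_lit 1) Bl.nil)) (Sl.cons (Sd.mk (nat_lit 2) (nat_lit 0) (nat_lit 2) (nat_lit 2) (Sb.cons (nat_lit 8) (nat_lit 0) (nat_lit 2) Sb.nil) (Bl.r Y2_5_1_0 (nat_lit 0) Bl.nil)) (Sl.cons (Sd.mk (nat_lit 4) (nat_lit 4) (nat_lit 4) (nat_lit 3) (Sb.cons (nat_lit 0) (nat_lit 0) (nat_lit 2) (Sb.cons (nat_lit 4) (nat_lit 2) (nat_lit 1) Sb.nil)) (Bl.r Y2_5_2_3 (nat_lit 3) Bl.nil)) (Sl.cons (Sd.mk (nat_lit 5) (nat_lit 4) (nat_lit 7) (nat_lit 2) (Sb.cons (nat_lit 8) (nat_lit 0) (nat_lit 2) Sb.nil) (Bl.c Y2_5_2_3 (nat_lit 9) (nat_lit 2) Bl.nil)) (Sl.cons (Sd.mk (nat_lit 9) (nat_lit 8) (nat_lit 9) (nat_lit 2) (Sb.cons (nat_lit 4) (nat_lit 0) (nat_lit 2) Sb.nil) (Bl.r Y2_5_4_5 (nat_lit 5) Bl.nil)) (Sl.cons (Sd.mk (nat_lit 10) (nat_lit 8) (nat_lit 11) (nat_lit 3) (Sb.cons (nat_lit 0) (nat_lit 0) (nat_lit 2) (Sb.cons (nat_lit 8) (nat_lit 2) (nat_lit 1)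 Sb.nil)) (Bl.c Y2_5_4_5 (nat_lit 6) (nat_lit 4) Bl.nil)) Sl.nil)))))))
noncomputable def C2_6 : Cd := (Cd.mk (nat_lit 0) (nat_lit 7) (nat_lit 322) (nat_lit 0) (nat_lit 0) (nat_lit 0) (nat_lit 0) Sl.nil)
noncomputable def SI2_7 : Nat := (nat_lit 0x200400)
noncomputable def SW2_7 : Nat := (nat_lit 0x8000001)
noncomputable def RV2_7 : Nat := (nat_lit 0x1080011ac0009ac003)
noncomputable def CO2_7 : Nat := (nat_lit 0x15684010056001116)
noncomputable def Y2_7_1_2 : Nat := (nat_lit 0x110)
noncomputable def C2_7 : Cd := (Cd.mk (nat_lit 3) (nat_lit 8) (nat_lit 98) SI2_7 SW2_7 RV2_7 CO2_7 (Sl.cons (Sd.mk (nat_lit 0) (nat_lit 0) (nat_lit 0) (nat_lit 1) (Sb.cons (nat_lit 4) (nat_lit 0) (nat_lit 1) Sb.nil) Bl.nil) (Sl.cons (Sd.mk (nat_lit 4) (nat_lit 4) (nat_lit 1) (nat_lit 1) (Sb.cons (nat_lit 0) (nat_lit 0) (nat_lit 1) Sb.nil) (Bl.r Y2_7_1_2 (nat_lit 2) Bl.nil)) (Sl.cons (Sd.mk (nat_lit 5) (nat_lit 4) (nat_lit 2) (nat_lit 1) (Sb.cons (nat_lit 4) (nat_lit 0) (nat_lit 1) Sb.nil) (Bl.c Y2_7_1_2 (nat_lit 3) (nat_lit 1) Bl.nil)) Sl.nil))))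
noncomputable def SI2_8 : Nat := (nat_lit 0x140501003008010040100000)
noncomputable def SW2_8 : Nat := (nat_lit 0x8003003001c002009004000800a000)
noncomputable def RV2_8 : Nat := (nat_lit 0xa600118a00318a00818a00a18a0010a600518a00c18a00d98a00598a006)
noncomputable def CO2_8 : Nat := (nat_lit 0x2889302888502558501664501004500aa1300aa05008a85001105000145)
noncomputable def Y2_8_1_0 : Nat := (nat_lit 0x110330)
noncomputable def Y2_8_2_3 : Nat := (nat_lit 0x110)
noncomputable def Y2_8_4_5 : Nat := (nat_lit 0x200)
noncomputable def C2_8 : Cd := (Cd.mk (nat_lit 10) (nat_lit 7) (nat_lit 532) SI2_8 SW2_8 RV2_8 CO2_8 (Sl.cons (Sd.mk (nat_lit 0) (nat_lit 0) (nat_lit 0) (nat_lit 2) (Sb.cons (nat_lit 0) (nat_lit 0) (nat_lit 1) (Sb.cons (nat_lit 4) (nat_lit 1) (nat_lit 1) Sb.nil)) (Bl.c Y2_8_1_0 (nat_lit 9) (nat_lit 1) Bl.nil)) (Sl.cons (Sd.mk (nat_lit 2) (nat_lit 0) (nat_lit 2) (nat_lit 3) (Sb.cons (nat_lit 0) (nat_lit 0) (nat_lit 1) (Sb.cons (nat_lit 8) (nat_lit 1) (nat_lit 2) Sb.nil)) (Bl.r Y2_8_1_0 (nat_lit 0) Bl.nil)) (Sl.cons (Sd.mk (nat_lit 4) (nat_lit 4) (nat_lit 5) (nat_lit 1)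 (Sb.cons (nat_lit 0) (nat_lit 0) (nat_lit 1) Sb.nil) (Bl.r Y2_8_2_3 (nat_lit 3) Bl.nil)) (Sl.cons (Sd.mk (nat_lit 5) (nat_lit 4) (nat_lit 6) (nat_lit 1) (Sb.cons (nat_lit 8) (nat_lit 0) (nat_lit 1) Sb.nil) (Bl.c Y2_8_2_3 (nat_lit 3) (nat_lit 2) Bl.nil)) (Sl.cons (Sd.mk (nat_lit 9) (nat_lit 8) (nat_lit 7) (nat_lit 1) (Sb.cons (nat_lit 4) (nat_lit 0) (nat_lit 1) Sb.nil) (Bl.r Y2_8_4_5 (nat_lit 5) Bl.nil)) (Sl.cons (Sd.mk (nat_lit 10) (nat_lit 8) (nat_lit 8) (nat_lit 2) (Sb.cons (nat_lit 0) (nat_lit 0) (nat_lit 2) Sb.nil) (Bl.c Y2_8_4_5 (nat_lit 3) (nat_lit 4) Bl.nil)) Sl.nil)))))))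
noncomputable def C2_9 : Cd := (Cd.mk (nat_lit 0) (nat_lit 8) (nat_lit 308) (nat_lit 0) (nat_lit 0) (nat_lit 0) (nat_lit 0) Sl.nil)
noncomputable def C2_10 : Cd := (Cd.mk (nat_lit 0) (nat_lit 9) (nat_lit 84) (nat_lit 0) (nat_lit 0) (nat_lit 0) (nat_lit 0) Sl.nil)
noncomputable def C2_11 : Cd := (Cd.mk (nat_lit 0) (nat_lit 8) (nat_lit 518) (nat_lit 0) (nat_lit 0) (nat_lit 0) (nat_lit 0) Sl.nil)
noncomputable def C2_12 : Cd := (Cd.mk (nat_lit 0) (nat_lit 9) (nat_lit 294) (nat_lit 0) (nat_lit 0) (nat_lit 0) (nat_lit 0) Sl.nil)
noncomputable def C2_13 : Cd := (Cd.mk (nat_lit 0) (nat_lit 10) (nat_lit 70) (nat_lit 0) (nat_lit 0) (nat_lit 0) (nat_lit 0) Sl.nil)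
noncomputable def C2_14 : Cd := (Cd.mk (nat_lit 0) (nat_lit 10) (nat_lit 280) (nat_lit 0) (nat_lit 0) (nat_lit 0) (nat_lit 0) Sl.nil)
noncomputable def C2_15 : Cd := (Cd.mk (nat_lit 0) (nat_lit 11) (nat_lit 56) (nat_lit 0) (nat_lit 0) (nat_lit 0) (nat_lit 0) Sl.nil)
noncomputable def C2_16 : Cd := (Cd.mk (nat_lit 0) (nat_lit 11) (nat_lit 266) (nat_lit 0) (nat_lit 0) (nat_lit 0) (nat_lit 0) Sl.nil)
noncomputable def C2_17 : Cd := (Cd.mk (nat_lit 0) (nat_lit 12) (nat_lit 42) (nat_lit 0) (nat_lit 0) (nat_lit 0) (nat_lit 0) Sl.nil)
noncomputable def C2_18 : Cd := (Cd.mk (nat_lit 0) (nat_lit 13) (nat_lit 28) (nat_lit 0) (nat_lit 0) (nat_lit 0) (nat_lit 0) Sl.nil)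
noncomputable def SI2_19 : Nat := (nat_lit 0x18060140400c0200400)
noncomputable def SW2_19 : Nat := (nat_lit 0x18000002002003801000a006)
noncomputable def RV2_19 : Nat := (nat_lit 0x8a60020a60002100040a60030a60040a60072100090a6006)
noncomputable def CO2_19 : Nat := (nat_lit 0x315930300d30288880251d301725301275300aa08003313)
noncomputable def Y2_19_4_5 : Nat := (nat_lit 0x100)
noncomputable def Y2_19_6_6 : Nat := (nat_lit 0x200)
noncomputable def C2_19 : Cd := (Cd.mk (nat_lit 8) (nat_lit 4) (nat_lit 4369) SI2_19 SW2_19 RV2_19 CO2_19 (Sl.cons (Sd.mk (nat_lit 0) (nat_lit 0) (nat_lit 0) (nat_lit 1) (Sb.cons (nat_lit 12) (nat_lit 0) (nat_lit 1) Sb.nil) Bl.nil) (Sl.cons (Sd.mk (nat_lit 2) (nat_lit 0) (nat_lit 1) (nat_lit 1) (Sb.cons (nat_lit 8) (nat_lit 0) (nat_lit 1) Sb.nil) Bl.nil) (Sl.cons (Sd.mk (nat_lit 4) (nat_lit 4) (nat_lit 2) (nat_lit 1) (Sb.cons (nat_lit 8) (nat_lit 0) (nat_lit 1) Sb.nil) Bl.nil) (Sl.cons (Sd.mk (nat_lit 5) (nat_lit 4) (nat_lit 3) (nat_lit 1) (Sb.cons (nat_lit 12) (nat_lit 0) (nat_lit 1) Sb.nil) Bl.nil) (Sl.cons (Sd.mk (nat_lit 9) (nat_lit 8) (nat_lit 4)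 (nat_lit 1) (Sb.cons (nat_lit 4) (nat_lit 0) (nat_lit 1) Sb.nil) (Bl.r Y2_19_4_5 (nat_lit 5) Bl.nil)) (Sl.cons (Sd.mk (nat_lit 10) (nat_lit 8) (nat_lit 5) (nat_lit 1) (Sb.cons (nat_lit 0) (nat_lit 0) (nat_lit 1) Sb.nil) (Bl.c Y2_19_4_5 (nat_lit 3) (nat_lit 4) Bl.nil)) (Sl.cons (Sd.mk (nat_lit 12) (nat_lit 12) (nat_lit 6) (nat_lit 2) (Sb.cons (nat_lit 0) (nat_lit 0) (nat_lit 1) (Sb.cons (nat_lit 4) (nat_lit 1) (nat_lit 1) Sb.nil)) (Bl.r Y2_19_6_6 (nat_lit 6) (Bl.c Y2_19_6_6 (nat_lit 6) (nat_lit 6) Bl.nil))) Sl.nil))))))))
noncomputable def C2_20 : Cd := (Cd.mk (nat_lit 0) (nat_lit 5) (nat_lit 4145) (nat_lit 0) (nat_lit 0) (nat_lit 0) (nat_lit 0) Sl.nil)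
noncomputable def C2_21 : Cd := (Cd.mk (nat_lit 0) (nat_lit 5) (nat_lit 4355) (nat_lit 0) (nat_lit 0) (nat_lit 0) (nat_lit 0) Sl.nil)
noncomputable def SI2_22 : Nat := (nat_lit 0x10030080100400)
noncomputable def SW2_22 : Nat := (nat_lit 0x40040000014002003)
noncomputable def RV2_22 : Nat := (nat_lit 0x10800010800228e000108003108004a8e001)
noncomputable def CO2_22 : Nat := (nat_lit 0x3088401568401004700b204008a84001107)
noncomputable def Y2_22_1_0 : Nat := (nat_lit 0x110110)
noncomputable def Y2_22_2_3 : Nat := (nat_lit 0x100)
noncomputable def C2_22 : Cd := (Cd.mk (nat_lit 6) (nat_lit 6) (nat_lit 4131) SI2_22 SW2_22 RV2_22 CO2_22 (Sl.cons (Sd.mk (nat_lit 0) (nat_lit 0) (nat_lit 0) (nat_lit 1) (Sb.cons (nat_lit 4) (nat_lit 0) (nat_lit 1) Sb.nil) (Bl.c Y2_22_1_0 (nat_lit 6) (nat_lit 1) Bl.nil)) (Sl.cons (Sd.mk (nat_lit 2) (nat_lit 0) (nat_lit 1) (nat_lit 2) (Sb.cons (nat_lit 0) (nat_lit 0) (nat_lit 1) (Sb.cons (nat_lit 12) (nat_lit 1) (nat_lit 1) Sb.nil)) (Bl.r Y2_22_1_0 (nat_lit 0) Bl.nil)) (Sl.cons (Sd.mk (nat_lit 4) (nat_lit 4) (nat_lit 3) (nat_lit 1) (Sb.cons (nat_lit 0)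 (nat_lit 0) (nat_lit 1) Sb.nil) (Bl.r Y2_22_2_3 (nat_lit 3) Bl.nil)) (Sl.cons (Sd.mk (nat_lit 5) (nat_lit 4) (nat_lit 4) (nat_lit 1) (Sb.cons (nat_lit 4) (nat_lit 0) (nat_lit 1) Sb.nil) (Bl.c Y2_22_2_3 (nat_lit 3) (nat_lit 2) Bl.nil)) (Sl.cons (Sd.mk (nat_lit 12) (nat_lit 12) (nat_lit 5) (nat_lit 1) (Sb.cons (nat_lit 0) (nat_lit 0) (nat_lit 1) Sb.nil) Bl.nil) Sl.nil))))))
noncomputable def C2_23 : Cd := (Cd.mk (nat_lit 0) (nat_lit 7) (nat_lit 4117) (nat_lit 0) (nat_lit 0) (nat_lit 0) (nat_lit 0) Sl.nil)
noncomputable def C2_24 : Cd := (Cd.mk (nat_lit 0) (nat_lit 8) (nat_lit 4103) (nat_lit 0) (nat_lit 0) (nat_lit 0) (nat_lit 0) Sl.nil)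
noncomputable def CL2 : Cl := (Cl.cons C2_0 (Cl.cons C2_1 (Cl.cons C2_2 (Cl.cons C2_3 (Cl.cons C2_4 (Cl.cons C2_5 (Cl.cons C2_6 (Cl.cons C2_7 (Cl.cons C2_8 (Cl.cons C2_9 (Cl.cons C2_10 (Cl.cons C2_11 (Cl.cons C2_12 (Cl.cons C2_13 (Cl.cons C2_14 (Cl.cons C2_15 (Cl.cons C2_16 (Cl.cons C2_17 (Cl.cons C2_18 (Cl.cons C2_19 (Cl.cons C2_20 (Cl.cons C2_21 (Cl.cons C2_22 (Cl.cons C2_23 (Cl.cons C2_24 Cl.nil)))))))))))))))))))))))))
noncomputable def AL2_0 : Nat := (nat_lit 0x100400800020408004)
noncomputable def A42_0 : Nat := (nat_lit 0)
noncomputable def IX2_0 : Nat := (nat_lit 0)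
noncomputable def OL2_0 : Nat := (nat_lit 0)
noncomputable def AL2_1 : Nat := (nat_lit 0)
noncomputable def A42_1 : Nat := (nat_lit 0)
noncomputable def IX2_1 : Nat := (nat_lit 0)
noncomputable def OL2_1 : Nat := (nat_lit 0)
noncomputable def AL2_2 : Nat := (nat_lit 0)
noncomputable def A42_2 : Nat := (nat_lit 0)
noncomputable def IX2_2 : Nat := (nat_lit 0)
noncomputable def OL2_2 : Nat := (nat_lit 0)
noncomputable def AL2_3 : Nat := (nat_lit 0)
noncomputable def A42_3 : Nat := (nat_lit 0)
noncomputable def IX2_3 : Nat := (nat_lit 0)
noncomputable def OL2_3 : Nat := (nat_lit 0)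
noncomputable def AL2_4 : Nat := (nat_lit 0x10000204808008420)
noncomputable def A42_4 : Nat := (nat_lit 0x10000204800000400)
noncomputable def IX2_4 : Nat := (nat_lit 0x40000000000000000000000000000000000000000000000000000000000000000000000000000000000000000000000000000000000000000000000000000000000000000000000000000000000000000000000000000000000000000000000000000000000000000000000000000000000000000000000000000003000000000000000000000000000000000000000000000000000000000000000000000000000000000000000000200000000000000000000000000000000000000100000000000000000000000000000000000000000000000000000000000000000000000000000000000000000000000000000000000000000000000000000000000000000000000000000000000000000000000000000000000000000000000000000000000000000000000000000000000000000000000000000000000000000000000000000000000000000000000000000000000000000000000000000000000000000000000000000000000000000000000000000000000000000000000000000000000000000000000000000000000000000000000000000000000000000000000)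
noncomputable def OL2_4 : Nat := (nat_lit 0x100016802600460028)
noncomputable def AL2_5 : Nat := (nat_lit 0x2080001400004a00012800002442048280800102408)
noncomputable def A42_5 : Nat := (nat_lit 0x80001400000a00002800000040048280000002400)
noncomputable def IX2_5 : Nat := (nat_lit 0xd000000000000000000000000000000000000000000000000000000000000000000000000000000000000000000000000000000000000000000000000000000000000000000000000000000000000000000000000000000000000000000000000000000000000000000000000000000000000000000000000000000c0000000000000000000000000b0000000000000000000000000000000000000000000000000000000000000000000000000000000000000000000000000000000000000000000000000000000000000000000000000000000000000000000000000000000000000000000000000000000000000000000000000000000000000000000000000000000000000000000000000000000000000000000000000000000000a0000000000000000000000000900000000000000000000000000000000000000000000000000000000000000000000000000000000000000000000000000000000000000000000000000000000000000000000000000000000000000000000000000000000000000000000000000000000000000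0000000000000000000000000000000000000000000000000000080000000000000000000000000700000000000000000000000000000000000000000000000000000000000000000000000000000000000000000000000000000000000000000000000000000000000000000000000000000000000000000000000000000000000000000000000000000000000000000000000000000000000000000000000000000000000000000000000000000000000000000000000000000000000000000000000000000000000000000000000000000000000000000000000000000000000000006000000000000000000000000000000000000000000000000000000000000000000000000000000000000000000000000000000000000000000000000000000000000000000000000000000000005000000000000000000000000000000000000004000000000000000000000000000000000000000000000000000000000000000000000000000003000000000000000000000000020000000000000000000000000000000000000000000000000000000000000000000000000000000000000000000000000000000000000000000000000000000000000000000000000000000000000000000000000000000000000000000000000000000000000000000000000000000000000000000000000000000000000000000000000000000000000000000000000000000000000000000000000000000000000000000000000000000000000000000000000000000000000000000000000000010000000000000000000000000000000000000000000000000000000000000000000000000000000000000000000000000000000000000000000000000000000000000000000000000000000000000000000000000)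
noncomputable def OL2_5 : Nat := (nat_lit 0x1460240047007700ea018402f8042006c00cc016802b001a0028)
noncomputable def AL2_6 : Nat := (nat_lit 0)
noncomputable def A42_6 : Nat := (nat_lit 0)
noncomputable def IX2_6 : Nat := (nat_lit 0)
noncomputable def OL2_6 : Nat := (nat_lit 0)
noncomputable def AL2_7 : Nat := (nat_lit 0x2082108)
noncomputable def A42_7 : Nat := (nat_lit 0x2002008)
noncomputable def IX2_7 : Nat := (nat_lit 0x20000000000000000000000000000000000000000000000000000000000000000000000000000000000000000000000000000000000000000000000000000000000000000000000000000000000010000000000000000000000000000000000000000000000000000000000000000000000000000000000000000000000000000000000000000000000000000000000000000000000000000000000000000000000000)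
noncomputable def OL2_7 : Nat := (nat_lit 0x19001a000c)
noncomputable def AL2_8 : Nat := (nat_lit 0x90008042000029020200208)
noncomputable def A42_8 : Nat := (nat_lit 0x90008002000029020000208)
noncomputable def IX2_8 : Nat := (nat_lit 0x90000000000000000000000000000000000000080000000000000000000000000000000000000000000000000000000000000000000000000000000000000000000000000000000000000000000000000000000000000000000000000000000000000000000000007000000000000000000000000000000000000000000000000000000000000000000000000000000000000000000000000000000000000000000000000000000000000000000000000000000000000000000000000000000000000060000000000000000000000000000000000000000000000000000000000000000000000000000000000000000000000000000000000000000000000000000000000000000000000000000000000000000000000000000000000000000000000000000000000000000000000000000000000000000000000000000000000000000000500000000000000000000000004000000000000000000000000000000000000003000000000000000000000000000000000000000000000000000000000000000000000000000000000000000000200000000000000000000000000000000000000000000000000000000000000000000000000000000000000000000000000000000000000000000000000000000000000000000000000000000000000000000000000000000000000000000000000000000000000000000000000000000000000000000000000000000000000000001000000000000000000000000000000000000000000000000000000000000000000000000000000000000000000000000000000000000000000000)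
noncomputable def OL2_8 : Nat := (nat_lit 0xb60160025803d0052009c012001d0012000c)
noncomputable def AL2_9 : Nat := (nat_lit 0)
noncomputable def A42_9 : Nat := (nat_lit 0)
noncomputable def IX2_9 : Nat := (nat_lit 0)
noncomputable def OL2_9 : Nat := (nat_lit 0)
noncomputable def AL2_10 : Nat := (nat_lit 0)
noncomputable def A42_10 : Nat := (nat_lit 0)
noncomputable def IX2_10 : Nat := (nat_lit 0)
noncomputable def OL2_10 : Nat := (nat_lit 0)
noncomputable def AL2_11 : Nat := (nat_lit 0)
noncomputable def A42_11 : Nat := (nat_lit 0)
noncomputable def IX2_11 : Nat := (nat_lit 0)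
noncomputable def OL2_11 : Nat := (nat_lit 0)
noncomputable def AL2_12 : Nat := (nat_lit 0)
noncomputable def A42_12 : Nat := (nat_lit 0)
noncomputable def IX2_12 : Nat := (nat_lit 0)
noncomputable def OL2_12 : Nat := (nat_lit 0)
noncomputable def AL2_13 : Nat := (nat_lit 0)
noncomputable def A42_13 : Nat := (nat_lit 0)
noncomputable def IX2_13 : Nat := (nat_lit 0)
noncomputable def OL2_13 : Nat := (nat_lit 0)
noncomputable def AL2_14 : Nat := (nat_lit 0)
noncomputable def A42_14 : Nat := (nat_lit 0)
noncomputable def IX2_14 : Nat := (nat_lit 0)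
noncomputable def OL2_14 : Nat := (nat_lit 0)
noncomputable def AL2_15 : Nat := (nat_lit 0)
noncomputable def A42_15 : Nat := (nat_lit 0)
noncomputable def IX2_15 : Nat := (nat_lit 0)
noncomputable def OL2_15 : Nat := (nat_lit 0)
noncomputable def AL2_16 : Nat := (nat_lit 0)
noncomputable def A42_16 : Nat := (nat_lit 0)
noncomputable def IX2_16 : Nat := (nat_lit 0)
noncomputable def OL2_16 : Nat := (nat_lit 0)
noncomputable def AL2_17 : Nat := (nat_lit 0)
noncomputable def A42_17 : Nat := (nat_lit 0)
noncomputable def IX2_17 : Nat := (nat_lit 0)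
noncomputable def OL2_17 : Nat := (nat_lit 0)
noncomputable def AL2_18 : Nat := (nat_lit 0)
noncomputable def A42_18 : Nat := (nat_lit 0)
noncomputable def IX2_18 : Nat := (nat_lit 0)
noncomputable def OL2_18 : Nat := (nat_lit 0)
noncomputable def AL2_19 : Nat := (nat_lit 0x90010000000000021000000000000240000000000000000018000000000901000000000060000000000009000000420000)
noncomputable def A42_19 : Nat := (nat_lit 0x80000000000000001000000000000040000000000000000008000000000800000000000020000000000001000000020000)
noncomputable def IX2_19 : Nat := (nat_lit 0x70000000000000000000000000000000000000000000000000000000000000000000000000000000000000000000000000000000000000000000000000000000000000000000000000000000000000000000000000000000000000000000000000000000000000000000000000000000000000000000000000000000000000000000000000000000000000000000000000000000000000000000000000000000000000000000000000000000000000000000000000000000000000000000000000000000000000000000000000000000000000000000000000000000000000000000000000000000000000000000000000000000000000000000000000000000000000000000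0000000000000000000000000000000000000000000000000000000000000000000000000000000000000000000000000000000000000000000000000000000000000000000000000000000000000000000000000000000000000000000000000000000000000000000000000000000000000000000000000000000000000000000000000000000000000000000000000000000000000000000000000000000000000000000000000000000000060000000000000000000000000000000000000000000000000000000000000000000000000000000000000000000000000000000000000000000000000000000000000000000000000000000000000000000000000000000000000000000000000000000000000000000000000000000000000000000000000000000000000000000000000000000000000000000000000000000000000000000000000000000000000000000000000000000000000000000000000000000000000000000000000000000000000000000000000000000000000000000000000000000000000000000000000000000000000000000000000000000000000000000000000000000000000000000000000000000000000000000000000000000000000000000000000000000000000000000000000000000000000000000000000000000000000000000000000000000000000000000000000000000000000000000000000000050000000000000000000000000000000000000000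0000000000000000000000000000000000000000000000000000000000000000000000000000000000000000000000000000000000000000000000000000000000000000000000000000000000000000000000000000000000000000000000000000000000000000000000000000000000000000000000000000000000000000000000000000000000000000000000000000000000000000000000000000000000000000000000000000000000000000000000000000000000000000000000000000000000000000000000000000000000000000000000000000000000000000000000000000000000000000000000000000000000000000000000000000000000000000000000000000000000000000000000000000000000000000000000000000000000000000000000000000000000000000000000000000000000000000000000000000000000000000000000000000000000000000000000000000000000000000000000000000000000000000000000000000000000000000000000000000000000000000000000000000000000000000000000000000000000000000000000000000000000000000000000000000000000000000000000000000000000000000000000000000000000000000000000400000000000000000000000000000000000000000000000000000000000000000000000000000000000000000000000000000000000000000000000000000000000000000000000000000000000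0000000000000000000000000000000000000000000000000000000000000000000000000000000000000000000000000000000000000000000000000000000000000000000000000000000000000000000000000000000000000000000000000000000000000000000000000000000000000000000000000000000000000000000000000000000000000000000000000000000000000000000000000000000000000000000000000000000000000000000000000000300000000000000000000000000000000000000000000000000000000000000000000000000000000000000000000000000000000000000000000000000000000000000000000000000000000000000000000000000000000000000000000000000000000000000000000000000000000000000000000000000000000000000000000000000000000000000000000000000000000000000000000000000000000000000000000000000000000000000000000000000000000000000000000000000000000000000000000000000000000000000000000000000000000000000000000000000000000000000000000000000000000000000000000000000000000000000000000000000000000000000000000000000000000000000000000000000000000000000000000000000000000000000000000000000000000000000000000000000000000000000000000000000000000000000000000000000000200000000000000000000000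000000000000000000000000000000000000000000000000000000000000000000000000000000000000000000000000000000000000000000000000000000000000000000000000000000000000000000000000000000000000000000000000000000000000000000000000000000000000000000000000000000000000000000000000000000000000000000000000000000000000000000000000000000000000000000000000000000000000000000000000000000000000000000000000000000000000000000000000000000000000000000000000000000000000000000000000000000000000000000000000000000000000000000000000000000000000000000000000000000000000000000000000000000000000000000000000000000000000000000000000000000000000000000000000000000000000000000000000000000000000000001000000000000000000000000000000000000000000000000000000000000000000000000000000000000000000000000000000000000000000000000000000000000000000000000000000000000000000000000000000000000000000000000000000000000000000000000000000000000000000000000000000000000000000000000000000000000000000000000000000000000000000000000000000000000000000000000000000000000000000000000000000000000000000000000000000000000000000000000000000000000000000000000000000000000000000000000000000000000000000000000000000000000000000000000000000000000000000000000000000000000000000000000000000000000000000000000000000000000000000000000000000000000000000000000)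
noncomputable def OL2_19 : Nat := (nat_lit 0xc38144021c030c04d806500600044)
noncomputable def AL2_20 : Nat := (nat_lit 0)
noncomputable def A42_20 : Nat := (nat_lit 0)
noncomputable def IX2_20 : Nat := (nat_lit 0)
noncomputable def OL2_20 : Nat := (nat_lit 0)
noncomputable def AL2_21 : Nat := (nat_lit 0)
noncomputable def A42_21 : Nat := (nat_lit 0)
noncomputable def IX2_21 : Nat := (nat_lit 0)
noncomputable def OL2_21 : Nat := (nat_lit 0)
noncomputable def AL2_22 : Nat := (nat_lit 0x44000000001100002008000000210001040200)
noncomputable def A42_22 : Nat := (nat_lit 0x40000000001000000008000000210000000200)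
noncomputable def IX2_22 : Nat := (nat_lit 0x500000000000000000000000000000000000000000000000000000000000000000000000000000000000000000000000000000000000000000000000000000000000000000000000000000000000000000000000000000000000000000000000000000000000000000000000000000000000000000000000000000000000000000000000000000000000000000000000000000000000000000000000000000000000000000000000000000000000000000000000000000000000000000000000000000000000000000000000000000000000000000000000000000000000000000000000000000000000000000000000000000000000000000000000000000000000000000000000000000000000000000400000000000000000000000000000000000000000000000000000000000000000000000000000000000000000000000000000000000000000000000000000000000000000000000000000000000000000000000000000000000000000000000000000000000000000000000000000000000000000000000000000000000000000000000000000000000000000000000000000000000000000000000000000000000000000000000000000000000000000000000000000000000000000000000000000000000000000000000000000000000000000000300000000000000000000000000000000000000000000000000000000000000000000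0000000000000000000000000000000000000000000000000000000000000000000000000000000000000000000000000000000000000000000000000000000000000000000000000000000000000000000000000000000000000000000000000000000000000000000000000000000000000000000000000000000000000000000000000000000000000000000000000000000000000000000000000000000002000000000000000000000000000000000000000000000000000000000000000010000000000000000000000000000000000000000000000000000000000000000000000000000000000000000000000000000000000000000000000000000000000000000000000000000000000000000000000000000000000000000000000000000000000000000000000000000000000000000000000000000000000000000000000000000000000000000000000000000000000000000000000000000000000000000000000000000000000000000000000000000000000000000000000000000000000000000000000000000000000000000000000000000000000000000000000000000000000000000000000000000000000000000000000000000000000000000)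
noncomputable def OL2_22 : Nat := (nat_lit 0x12c01b0025802d00500024)
noncomputable def AL2_23 : Nat := (nat_lit 0)
noncomputable def A42_23 : Nat := (nat_lit 0)
noncomputable def IX2_23 : Nat := (nat_lit 0)
noncomputable def OL2_23 : Nat := (nat_lit 0)
noncomputable def AL2_24 : Nat := (nat_lit 0)
noncomputable def A42_24 : Nat := (nat_lit 0)
noncomputable def IX2_24 : Nat := (nat_lit 0)
noncomputable def OL2_24 : Nat := (nat_lit 0)
noncomputable def TL2 : Tl := (Tl.cons (Tr.mk AL2_0 A42_0 IX2_0 OL2_0) (Tl.cons (Tr.mk AL2_1 A42_1 IX2_1 OL2_1) (Tl.cons (Tr.mk AL2_2 A42_2 IX2_2 OL2_2) (Tl.cons (Tr.mk AL2_3 A42_3 IX2_3 OL2_3) (Tl.cons (Tr.mk AL2_4 A42_4 IX2_4 OL2_4) (Tl.cons (Tr.mk AL2_5 A42_5 IX2_5 OL2_5) (Tl.cons (Tr.mk AL2_6 A42_6 IX2_6 OL2_6) (Tl.cons (Tr.mk AL2_7 A42_7 IX2_7 OL2_7) (Tl.cons (Tr.mk AL2_8 A42_8 IX2_8 OL2_8) (Tl.cons (Tr.mk AL2_9 A42_9 IX2_9 OL2_9) (Tl.cons (Tr.mk AL2_10 A42_10 IX2_10 OL2_10) (Tl.cons (Tr.mk AL2_11 A42_11 IX2_11 OL2_11) (Tl.cons (Tr.mk AL2_12 A42_12 IX2_12 OL2_12) (Tl.cons (Tr.mk AL2_13 A42_13 IX2_13 OL2_13) (Tl.cons (Tr.mk AL2_14 A42_14 IX2_14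 OL2_14) (Tl.cons (Tr.mk AL2_15 A42_15 IX2_15 OL2_15) (Tl.cons (Tr.mk AL2_16 A42_16 IX2_16 OL2_16) (Tl.cons (Tr.mk AL2_17 A42_17 IX2_17 OL2_17) (Tl.cons (Tr.mk AL2_18 A42_18 IX2_18 OL2_18) (Tl.cons (Tr.mk AL2_19 A42_19 IX2_19 OL2_19) (Tl.cons (Tr.mk AL2_20 A42_20 IX2_20 OL2_20) (Tl.cons (Tr.mk AL2_21 A42_21 IX2_21 OL2_21) (Tl.cons (Tr.mk AL2_22 A42_22 IX2_22 OL2_22) (Tl.cons (Tr.mk AL2_23 A42_23 IX2_23 OL2_23) (Tl.cons (Tr.mk AL2_24 A42_24 IX2_24 OL2_24) Tl.nil)))))))))))))))))))))))))
noncomputable def ZL2_0 : Zl := (Zl.cons (nat_lit 0) (nat_lit 0) (nat_lit 0) (Zl.cons (nat_lit 0) (nat_lit 0) (nat_lit 0) (Zl.cons (nat_lit 0) (nat_lit 0) (nat_lit 0) (Zl.cons (nat_lit 0) (nat_lit 0) (nat_lit 0) (Zl.cons (nat_lit 0) (nat_lit 0) (nat_lit 0) (Zl.cons (nat_lit 4) (nat_lit 0) (nat_lit 3) (Zl.cons (nat_lit 0) (nat_lit 0) (nat_lit 0) (Zl.cons (nat_lit 1) (nat_lit 3) (nat_lit 1) (Zl.cons (nat_lit 5) (nat_lit 4) (nat_lit 1) (Zl.cons (nat_lit 0) (nat_lit 0) (nat_lit 0) (Zl.cons (nat_lit 0) (nat_lit 0) (nat_lit 0) (Zl.cons (nat_lit 0) (nat_lit 0) (nat_lit 0) (Zl.cons (nat_lit 0) (nat_lit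 0) (nat_lit 0) (Zl.cons (nat_lit 0) (nat_lit 0) (nat_lit 0) (Zl.cons (nat_lit 0) (nat_lit 0) (nat_lit 0) (Zl.cons (nat_lit 0) (nat_lit 0) (nat_lit 0) (Zl.cons (nat_lit 0) (nat_lit 0) (nat_lit 0) (Zl.cons (nat_lit 0) (nat_lit 0) (nat_lit 0) (Zl.cons (nat_lit 0) (nat_lit 0) (nat_lit 0) (Zl.cons (nat_lit 2) (nat_lit 5) (nat_lit 1) (Zl.cons (nat_lit 0) (nat_lit 0) (nat_lit 0) (Zl.cons (nat_lit 0) (nat_lit 0) (nat_lit 0) (Zl.cons (nat_lit 3) (nat_lit 6) (nat_lit 1) (Zl.cons (nat_lit 0) (nat_lit 0) (nat_lit 0) (Zl.cons (nat_lit 0) (nat_lit 0) (nat_lit 0) Zl.nil)))))))))))))))))))))))))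
noncomputable def ZZ2 : ZZ := (ZZ.cons ZL2_0 ZZ.nil)

end Pool.Agent.NNr.R13_1_2_4
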