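import Pool.Agent.NNr.R13_1_2_4.D2

set_option linter.all false
set_option maxRecDepth 1000000
namespace Pool.Agent.NNr.R13_1_2_4

open Pool.Agent.NNe

def sc2_18 : stCov (nat_lit 0) (nat_lit 0) Rl.nil C2_18 = true := by decide +kernel
def sc2_20 : stCov (nat_lit 0) (nat_lit 0) Rl.nil C2_20 = true := by decide +kernel
def sc2_21 : stCov (nat_lit 0) (nat_lit 0) Rl.nil C2_21 = true := by decide +kernel
def sc2_23 : stCov (nat_lit 0) (nat_lit 0) Rl.nil C2_23 = true := by decide +kernel
def sc2_24 : stCov (nat_lit 0) (nat_lit 0) Rl.nil C2_24 = true := by decide +kernel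
def tc2_0 : tiCov (nat_lit 1) (nat_lit 0) ZZ2 C2_0 = true := by decide +kernel
def tc2_1 : tiCov (nat_lit 1) (nat_lit 1) ZZ2 C2_1 = true := by decide +kernel
def tc2_2 : tiCov (nat_lit 1) (nat_lit 2) ZZ2 C2_2 = true := by decide +kernel
def tc2_3 : tiCov (nat_lit 1) (nat_lit 3) ZZ2 C2_3 = true := by decide +kernel
def tc2_6 : tiCov (nat_lit 1) (nat_lit 6) ZZ2 C2_6 = true := by decide +kernel
def tc2_9 : tiCov (nat_lit 1) (nat_lit 9) ZZ2 C2_9 = true := by decide +kernel
def tc2_10 : tiCov (nat_lit 1) (nat_lit 10) ZZ2 C2_10 = true := by decide +kernel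
def tc2_11 : tiCov (nat_lit 1) (nat_lit 11) ZZ2 C2_11 = true := by decide +kernel
def tc2_12 : tiCov (nat_lit 1) (nat_lit 12) ZZ2 C2_12 = true := by decide +kernel
def tc2_13 : tiCov (nat_lit 1) (nat_lit 13) ZZ2 C2_13 = true := by decide +kernel
def tc2_14 : tiCov (nat_lit 1) (nat_lit 14) ZZ2 C2_14 = true := by decide +kernel
def tc2_15 : tiCov (nat_lit 1) (nat_lit 15) ZZ2 C2_15 = true := by decide +kernel
def tc2_16 : tiCov (nat_lit 1) (nat_lit 16) ZZ2 C2_16 = true := by decide +kernel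
def tc2_17 : tiCov (nat_lit 1) (nat_lit 17) ZZ2 C2_17 = true := by decide +kernel
def tc2_18 : tiCov (nat_lit 1) (nat_lit 18) ZZ2 C2_18 = true := by decide +kernel
def tc2_20 : tiCov (nat_lit 1) (nat_lit 20) ZZ2 C2_20 = true := by decide +kernel
def tc2_21 : tiCov (nat_lit 1) (nat_lit 21) ZZ2 C2_21 = true := by decide +kernel
def tc2_23 : tiCov (nat_lit 1) (nat_lit 23) ZZ2 C2_23 = true := by decide +kernel
def tc2_24 : tiCov (nat_lit 1) (nat_lit 24) ZZ2 C2_24 = true := by decide +kernel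
def de2_0 : deadCk (nat_lit 4) (nat_lit 3) C2_0 = true := by decide +kernel
def de2_1 : deadCk (nat_lit 4) (nat_lit 3) C2_1 = true := by decide +kernel
def de2_2 : deadCk (nat_lit 4) (nat_lit 3) C2_2 = true := by decide +kernel
def de2_3 : deadCk (nat_lit 4) (nat_lit 3) C2_3 = true := by decide +kernel
def de2_6 : deadCk (nat_lit 4) (nat_lit 3) C2_6 = true := by decide +kernel
def de2_9 : deadCk (nat_lit 4) (nat_lit 3) C2_9 = true := by decide +kernel
def de2_10 : deadCk (nat_lit 4) (nat_lit 3) C2_10 = true := by decide +kernel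
def de2_11 : deadCk (nat_lit 4) (nat_lit 3) C2_11 = true := by decide +kernel
def de2_12 : deadCk (nat_lit 4) (nat_lit 3) C2_12 = true := by decide +kernel
def de2_13 : deadCk (nat_lit 4) (nat_lit 3) C2_13 = true := by decide +kernel
def de2_14 : deadCk (nat_lit 4) (nat_lit 3) C2_14 = true := by decide +kernel
def de2_15 : deadCk (nat_lit 4) (nat_lit 3) C2_15 = true := by decide +kernel
def de2_16 : deadCk (nat_lit 4) (nat_lit 3) C2_16 = true := by decide +kernel
def de2_17 : deadCk (nat_lit 4) (nat_lit 3) C2_17 = true := by decide +kernel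
def de2_18 : deadCk (nat_lit 4) (nat_lit 3) C2_18 = true := by decide +kernel
def de2_20 : deadCk (nat_lit 4) (nat_lit 3) C2_20 = true := by decide +kernel
def de2_21 : deadCk (nat_lit 4) (nat_lit 3) C2_21 = true := by decide +kernel
def de2_23 : deadCk (nat_lit 4) (nat_lit 3) C2_23 = true := by decide +kernel
def de2_24 : deadCk (nat_lit 4) (nat_lit 3) C2_24 = true := by decide +kernel

end Pool.Agent.NNr.R13_1_2_4
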